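import Pool.Agent.Helper14.MT.Grs

/-!
# The trace of the adjoint action of a similitude
-/

set_option autoImplicit false

open Matrix

namespace MT.Grs

open MT.Psr MT.Smp

variable {K : Type*} [Field K] {n : ℕ}

/-- the Lie algebra of isometries as a subspace -/
def isoS (psi : Matrix (Fin n) (Fin n) K) : Submodule K (Matrix (Fin n) (Fin n) K) where
  carrier := {A | Iso psi A}
  zero_mem' := by
    show Iso psi 0
    unfold Iso
    rw [transpose_zero, zero_mul, mul_zero, add_zero]
  add_mem' := by
    intro A B hA hB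
    show Iso psi (A + B)
    unfold Iso
    have h1 : A.transpose * psi + psi * A = 0 := hA
    have h2 : B.transpose * psi + psi * B = 0 := hB
    have h3 : (A + B).transpose * psi + psi * (A + B) =
        (A.transpose * psi + psi * A) + (B.transpose * psi + psi * B) := by
      rw [transpose_add, add_mul, mul_add]
      abel
    rw [h3, h1, h2, add_zero]
  smul_mem' := by
    intro c A hA
    show Iso psi (c • A)
    unfold Iso
    have h1 : A.transpose * psi + psi * A = 0 := hA
    rw [transpose_smul, smul_mul_assoc, mul_smul_comm, ← smul_add, h1, smul_zero]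

theorem mem_isoS (psi A : Matrix (Fin n) (Fin n) K) : A ∈ isoS psi ↔ Iso psi A := Iff.rfl

theorem trace_matrix (f : Matrix (Fin n) (Fin n) K →ₗ[K] Matrix (Fin n) (Fin n) K) :
    LinearMap.trace K _ f = ∑ i, ∑ j, f (Matrix.single i j 1) i j := by
  rw [LinearMap.trace_eq_matrix_trace K (Matrix.stdBasis K (Fin n) (Fin n))]
  unfold Matrix.trace
  rw [← Finset.univ_product_univ, Finset.sum_product]
  refine Finset.sum_congr rfl fun i _ => Finset.sum_congr rfl fun j _ => ?_
  rw [Matrix.diag_apply, LinearMap.toMatrix_apply, Matrix.stdBasis_eq_single]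
  have h1 : ∀ (M : Matrix (Fin n) (Fin n) K), (Matrix.stdBasis K (Fin n) (Fin n)).repr M (i, j) =
      M i j := by
    intro M
    simp [Matrix.stdBasis]
  exact h1 _

/-- `A ↦ g A h` -/
def mulLR (g h : Matrix (Fin n) (Fin n) K) :
    Matrix (Fin n) (Fin n) K →ₗ[K] Matrix (Fin n) (Fin n) K where
  toFun A := g * A * h
  map_add' A B := by rw [mul_add, add_mul]
  map_smul' c A := by rw [mul_smul_comm, smul_mul_assoc, RingHom.id_apply]

/-- `A ↦ g Aᵀ h` -/
def mulLRT (g h : Matrix (Fin n) (Fin n) K) :
    Matrix (Fin n) (Fin n) K →ₗ[K] Matrix (Fin n) (Fin n) K where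
  toFun A := g * A.transpose * h
  map_add' A B := by rw [transpose_add, mul_add, add_mul]
  map_smul' c A := by rw [transpose_smul, mul_smul_comm, smul_mul_assoc, RingHom.id_apply]

theorem trace_mulLR (g h : Matrix (Fin n) (Fin n) K) :
    LinearMap.trace K _ (mulLR g h) = g.trace * h.trace := by
  rw [trace_matrix]
  have h1 : ∀ i j, (mulLR g h) (Matrix.single i j 1) i j = g i i * h j j := by
    intro i j
    show (g * (Matrix.single i j 1 : Matrix (Fin n) (Fin n) K) * h) i j = g i i * h j j
    rw [Matrix.mul_apply, Finset.sum_eq_single j]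
    · rw [Matrix.mul_single_apply_same, mul_one]
    · intro k _ hk
      rw [Matrix.mul_single_apply_of_ne (hbj := hk), zero_mul]
    · intro h
      exact absurd (Finset.mem_univ _) h
  simp only [h1]
  unfold Matrix.trace
  rw [Finset.sum_mul_sum]
  rfl

theorem trace_mulLRT (g h : Matrix (Fin n) (Fin n) K) :
    LinearMap.trace K _ (mulLRT g h) = (g.transpose * h).trace := by
  rw [trace_matrix]
  have h1 : ∀ i j, (mulLRT g h) (Matrix.single i j 1) i j = g i j * h i j := by
    intro i j
    show (g * (Matrix.single i j 1 : Matrix (Fin n) (Fin n) K).transpose * h) i j = g i j * h i j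
    rw [Matrix.transpose_single, Matrix.mul_apply, Finset.sum_eq_single i]
    · rw [Matrix.mul_single_apply_same, mul_one]
    · intro k _ hk
      rw [Matrix.mul_single_apply_of_ne (hbj := hk), zero_mul]
    · intro h
      exact absurd (Finset.mem_univ _) h
  simp only [h1]
  unfold Matrix.trace
  rw [Finset.sum_comm]
  refine Finset.sum_congr rfl fun j _ => ?_
  rw [Matrix.diag_apply, Matrix.mul_apply]
  rfl

/-- the adjoint trace of a similitude -/
theorem ad_trace [CharZero K] {ε μ : K} (hε : ε * ε = 1) {psi : Matrix (Fin n) (Fin n) K}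
    (hpsi : psi.transpose = ε • psi) (hu : IsUnit psi) {g gi : Matrix (Fin n) (Fin n) K}
    (hg : g * gi = 1) (hμ : μ ≠ 0) (hsim : g.transpose * psi * g = μ • psi)
    (T : isoS psi →ₗ[K] isoS psi)
    (hT : ∀ A : isoS psi, ((T A : isoS psi) : Matrix (Fin n) (Fin n) K) = g * A * gi) :
    2 * μ * LinearMap.trace K _ T = g.trace ^ 2 - ε * (g * g).trace := by
  have hdet : IsUnit psi.det := (Matrix.isUnit_iff_isUnit_det psi).mp hu
  have hpp : psi⁻¹ * psi = 1 := Matrix.nonsing_inv_mul psi hdet
  have hpp' : psi * psi⁻¹ = 1 := Matrix.mul_nonsing_inv psi hdet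
  have hε0 : ε ≠ 0 := by
    intro h
    rw [h, mul_zero] at hε
    exact zero_ne_one hε
  have hpt : (psi⁻¹).transpose = ε • psi⁻¹ := by
    rw [Matrix.transpose_nonsing_inv, hpsi]
    refine Matrix.inv_eq_left_inv ?_
    rw [smul_mul_smul_comm, hε, one_smul, hpp]
  -- the inverse
  have hgi : gi = μ⁻¹ • (psi⁻¹ * g.transpose * psi) := by
    have h1 : (μ⁻¹ • (psi⁻¹ * g.transpose * psi)) * g = 1 := by
      have h2 : psi⁻¹ * g.transpose * psi * g = psi⁻¹ * (g.transpose * psi * g) := by
        simp only [Matrix.mul_assoc]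
      rw [smul_mul_assoc, h2, hsim, mul_smul_comm, hpp, smul_smul, inv_mul_cancel₀ hμ, one_smul]
    calc gi = (μ⁻¹ • (psi⁻¹ * g.transpose * psi)) * g * gi := by rw [h1, Matrix.one_mul]
      _ = _ := by rw [Matrix.mul_assoc, hg, Matrix.mul_one]
  have t1 : gi.trace = μ⁻¹ * g.trace := by
    rw [hgi, Matrix.trace_smul, Matrix.trace_mul_comm, ← Matrix.mul_assoc, hpp', Matrix.one_mul,
      Matrix.trace_transpose, smul_eq_mul]
  have t2 : (gi * gi).trace = μ⁻¹ * μ⁻¹ * (g * g).trace := by
    have h3 : gi * gi = (μ⁻¹ * μ⁻¹) • (psi⁻¹ * (g * g).transpose * psi) := by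
      rw [hgi, smul_mul_smul_comm, Matrix.transpose_mul]
      have h4 : psi⁻¹ * g.transpose * psi * (psi⁻¹ * g.transpose * psi) =
          psi⁻¹ * g.transpose * (psi * psi⁻¹) * g.transpose * psi := by
        simp only [Matrix.mul_assoc]
      rw [h4, hpp', Matrix.mul_one]
      simp only [Matrix.mul_assoc]
    rw [h3, Matrix.trace_smul, Matrix.trace_mul_comm, ← Matrix.mul_assoc, hpp', Matrix.one_mul,
      Matrix.trace_transpose, smul_eq_mul]
  -- the projected map
  let F : Matrix (Fin n) (Fin n) K →ₗ[K] Matrix (Fin n) (Fin n) K :=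
    (2⁻¹ : K) • (mulLR g gi - mulLRT (psi⁻¹ * gi.transpose) (g.transpose * psi))
  have hF : ∀ A, F A = (2⁻¹ : K) • (g * A * gi -
      psi⁻¹ * (g * A * gi).transpose * psi) := by
    intro A
    show (2⁻¹ : K) • (g * A * gi - psi⁻¹ * gi.transpose * A.transpose * (g.transpose * psi)) = _
    rw [Matrix.transpose_mul, Matrix.transpose_mul]
    simp only [Matrix.mul_assoc]
  have hFm : ∀ A, F A ∈ isoS psi := by
    intro A
    rw [hF, mem_isoS]
    unfold Iso
    set B := g * A * gi with hB
    have h5 : (psi⁻¹ * B.transpose * psi).transpose * psi = psi * B := by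
      rw [Matrix.transpose_mul, Matrix.transpose_mul, hpt, hpsi, Matrix.transpose_transpose]
      have h6 : ε • psi * (B * ε • psi⁻¹) * psi = (ε * ε) • (psi * B * (psi⁻¹ * psi)) := by
        rw [mul_smul_comm, smul_mul_smul_comm, smul_mul_assoc]
        simp only [Matrix.mul_assoc]
      rw [h6, hpp, Matrix.mul_one, hε, one_smul]
    have h7 : psi * (psi⁻¹ * B.transpose * psi) = B.transpose * psi := by
      rw [← Matrix.mul_assoc, ← Matrix.mul_assoc, hpp', Matrix.one_mul]
    rw [transpose_smul, smul_mul_assoc, mul_smul_comm, ← smul_add, transpose_sub, sub_mul, mul_sub,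
      h5, h7, sub_add_sub_cancel', sub_self, smul_zero]
  have hFT : ∀ A : isoS psi, F (A : Matrix (Fin n) (Fin n) K) = (T A : isoS psi) := by
    intro A
    have h8 : Iso psi ((T A : isoS psi) : Matrix (Fin n) (Fin n) K) := (T A).2
    rw [hT] at h8
    rw [hF, hT]
    set B := g * (A : Matrix (Fin n) (Fin n) K) * gi with hB
    have h9 : B.transpose * psi = -(psi * B) := eq_neg_of_add_eq_zero_left h8
    rw [Matrix.mul_assoc, h9, mul_neg, ← Matrix.mul_assoc, hpp, Matrix.one_mul, sub_neg_eq_add,
      ← two_smul K, smul_smul, inv_mul_cancel₀ two_ne_zero, one_smul]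
  have hT' : T = F.restrict (p := isoS psi) (q := isoS psi) (fun x _ => hFm x) := by
    ext A : 1
    refine Subtype.ext ?_
    rw [← hFT]
    rfl
  have h10 : LinearMap.trace K _ T = LinearMap.trace K _ F := by
    rw [hT']
    exact LinearMap.trace_restrict_eq_of_forall_mem (isoS psi) F hFm
  have h11 : LinearMap.trace K _ F = 2⁻¹ * (g.trace * gi.trace -
      ((psi⁻¹ * gi.transpose).transpose * (g.transpose * psi)).trace) := by
    show LinearMap.trace K _ ((2⁻¹ : K) • (mulLR g gi -
      mulLRT (psi⁻¹ * gi.transpose) (g.transpose * psi))) = _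
    rw [map_smul, map_sub, trace_mulLR, trace_mulLRT, smul_eq_mul]
  have h12 : ((psi⁻¹ * gi.transpose).transpose * (g.transpose * psi)).trace =
      ε * (μ * (gi * gi).trace) := by
    have h13 : g.transpose * psi = μ • (psi * gi) := by
      calc g.transpose * psi = g.transpose * psi * (g * gi) := by rw [hg, Matrix.mul_one]
        _ = (g.transpose * psi * g) * gi := by simp only [Matrix.mul_assoc]
        _ = μ • (psi * gi) := by rw [hsim, smul_mul_assoc]
    rw [Matrix.transpose_mul, hpt, Matrix.transpose_transpose, h13, mul_smul_comm, mul_smul_comm,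
      smul_mul_assoc, Matrix.trace_smul, Matrix.trace_smul]
    have h14 : gi * psi⁻¹ * (psi * gi) = gi * gi := by
      have : gi * psi⁻¹ * (psi * gi) = gi * (psi⁻¹ * psi) * gi := by simp only [Matrix.mul_assoc]
      rw [this, hpp, Matrix.mul_one]
    rw [h14, smul_eq_mul, smul_eq_mul]
    ring
  rw [h10, h11, h12, t1, t2]
  field_simp

end MT.Grs
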