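import Pool.Agent.Helper14.MT.So

/-!
# Goursat's lemma for Lie algebras of matrices, and adjoint traces
-/

set_option autoImplicit false

open Matrix

namespace MT.Grs

open MT.Psr MT.Smp

variable {K : Type*} [Field K]

/-! ## Ribet's lemma -/

/-- A subalgebra of a product of perfect algebras which surjects onto all pairs is everything. -/
theorem ribet {ι : Type*} [Fintype ι] [DecidableEq ι] (R : ι → Type*) [∀ i, Ring (R i)]
    [∀ i, Algebra K (R i)] (s : ∀ i, Submodule K (R i))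
    (hperf : ∀ i, ∀ A ∈ s i, A ∈ Submodule.span K
      {C | ∃ X ∈ s i, ∃ Y ∈ s i, C = X * Y - Y * X})
    (L : Submodule K (∀ i, R i)) (hbr : ∀ x ∈ L, ∀ y ∈ L, x * y - y * x ∈ L)
    (hone : ∀ i, ∀ A ∈ s i, ∃ x ∈ L, x i = A)
    (hpair : ∀ i j, i ≠ j → ∀ A ∈ s i, ∃ x ∈ L, x i = A ∧ x j = 0)
    (x : ∀ i, R i) (hx : ∀ i, x i ∈ s i) : x ∈ L := by
  have key : ∀ i : ι, ∀ T : Finset ι, i ∉ T → ∀ A ∈ s i, ∃ y ∈ L, y i = A ∧ ∀ j ∈ T, y j = 0 := by
    intro i T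
    induction T using Finset.induction_on with
    | empty =>
      intro _ A hA
      obtain ⟨y, hy, hyA⟩ := hone i A hA
      exact ⟨y, hy, hyA, fun j hj => absurd hj (Finset.notMem_empty j)⟩
    | insert j T hj ih =>
      intro hi A hA
      rw [Finset.mem_insert, not_or] at hi
      have hAs := hperf i A hA
      clear hA
      induction hAs using Submodule.span_induction with
      | mem C hC =>
        obtain ⟨X, hX, Y, hY, rfl⟩ := hC
        obtain ⟨y, hy, hyX, hyT⟩ := ih hi.2 X hX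
        obtain ⟨z, hz, hzY, hzj⟩ := hpair i j hi.1 Y hY
        refine ⟨y * z - z * y, hbr y hy z hz, ?_, ?_⟩
        · rw [Pi.sub_apply, Pi.mul_apply, Pi.mul_apply, hyX, hzY]
        · intro k hk
          rw [Pi.sub_apply, Pi.mul_apply, Pi.mul_apply]
          rcases Finset.mem_insert.mp hk with rfl | hk
          · rw [hzj, mul_zero, zero_mul, sub_zero]
          · rw [hyT k hk, mul_zero, zero_mul, sub_zero]
      | zero => exact ⟨0, L.zero_mem, rfl, fun _ _ => rfl⟩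
      | add C D _ _ h1 h2 =>
        obtain ⟨y, hy, hyC, hyT⟩ := h1
        obtain ⟨z, hz, hzD, hzT⟩ := h2
        refine ⟨y + z, L.add_mem hy hz, by rw [Pi.add_apply, hyC, hzD], fun k hk => ?_⟩
        rw [Pi.add_apply, hyT k hk, hzT k hk, add_zero]
      | smul c C _ h1 =>
        obtain ⟨y, hy, hyC, hyT⟩ := h1
        refine ⟨c • y, L.smul_mem c hy, by rw [Pi.smul_apply, hyC], fun k hk => ?_⟩
        rw [Pi.smul_apply, hyT k hk, smul_zero]
  have h1 : ∀ i, Pi.single i (x i) ∈ L := by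
    intro i
    obtain ⟨y, hy, hyA, hyT⟩ := key i (Finset.univ.erase i) (Finset.notMem_erase i _) (x i) (hx i)
    have h2 : y = Pi.single i (x i) := by
      funext k
      by_cases hk : k = i
      · subst hk
        rw [hyA, Pi.single_eq_same]
      · rw [Pi.single_eq_of_ne hk]
        exact hyT k (Finset.mem_erase.mpr ⟨hk, Finset.mem_univ k⟩)
    rw [← h2]
    exact hy
  rw [← Finset.univ_sum_single x]
  exact L.sum_mem fun i _ => h1 i

/-! ## Goursat's lemma -/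

/-- A subalgebra of the product of two simple algebras which surjects onto both factors is
everything or the graph of a bijection. -/
theorem goursat {R₁ R₂ : Type*} [Ring R₁] [Algebra K R₁] [Ring R₂] [Algebra K R₂]
    (s₁ : Submodule K R₁) (s₂ : Submodule K R₂)
    (h₁ : ∀ I : Submodule K R₁, I ≤ s₁ → (∀ A ∈ I, ∀ B ∈ s₁, B * A - A * B ∈ I) → I ≠ ⊥ → s₁ ≤ I)
    (h₂ : ∀ I : Submodule K R₂, I ≤ s₂ → (∀ A ∈ I, ∀ B ∈ s₂, B * A - A * B ∈ I) → I ≠ ⊥ → s₂ ≤ I)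
    (L : Submodule K (R₁ × R₂)) (hL : ∀ p ∈ L, p.1 ∈ s₁ ∧ p.2 ∈ s₂)
    (hbr : ∀ p ∈ L, ∀ q ∈ L, p * q - q * p ∈ L)
    (hs₁ : ∀ A ∈ s₁, ∃ B, (A, B) ∈ L) (hs₂ : ∀ B ∈ s₂, ∃ A, (A, B) ∈ L) :
    (∀ A ∈ s₁, ∀ B ∈ s₂, (A, B) ∈ L) ∨ ∀ p ∈ L, (p.1 = 0 ↔ p.2 = 0) := by
  let I₁ : Submodule K R₁ := L.comap (LinearMap.inl K R₁ R₂)
  let I₂ : Submodule K R₂ := L.comap (LinearMap.inr K R₁ R₂)
  have m₁ : ∀ A, A ∈ I₁ ↔ (A, (0 : R₂)) ∈ L := fun A => Iff.rfl
  have m₂ : ∀ B, B ∈ I₂ ↔ ((0 : R₁), B) ∈ L := fun A => Iff.rfl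
  have id₁ : ∀ A ∈ I₁, ∀ B ∈ s₁, B * A - A * B ∈ I₁ := by
    intro A hA B hB
    obtain ⟨C, hC⟩ := hs₁ B hB
    have h := hbr _ hC _ ((m₁ A).mp hA)
    rw [m₁]
    have e : ((B, C) : R₁ × R₂) * (A, 0) - (A, 0) * (B, C) = (B * A - A * B, 0) := by
      rw [Prod.mk_mul_mk, Prod.mk_mul_mk, Prod.mk_sub_mk, mul_zero, zero_mul, sub_zero]
    rw [e] at h
    exact h
  have id₂ : ∀ A ∈ I₂, ∀ B ∈ s₂, B * A - A * B ∈ I₂ := by
    intro A hA B hB
    obtain ⟨C, hC⟩ := hs₂ B hB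
    have h := hbr _ hC _ ((m₂ A).mp hA)
    rw [m₂]
    have e : ((C, B) : R₁ × R₂) * (0, A) - (0, A) * (C, B) = (0, B * A - A * B) := by
      rw [Prod.mk_mul_mk, Prod.mk_mul_mk, Prod.mk_sub_mk, mul_zero, zero_mul, sub_zero]
    rw [e] at h
    exact h
  by_cases e₁ : I₁ = ⊥
  · by_cases e₂ : I₂ = ⊥
    · refine Or.inr fun p hp => ⟨fun h => ?_, fun h => ?_⟩
      · have h3 : p.2 ∈ I₂ := by
          rw [m₂, ← h]
          exact hp
        rw [e₂] at h3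
        exact (Submodule.mem_bot K).mp h3
      · have h3 : p.1 ∈ I₁ := by
          rw [m₁, ← h]
          exact hp
        rw [e₁] at h3
        exact (Submodule.mem_bot K).mp h3
    · refine Or.inl fun A hA B hB => ?_
      have h3 : s₂ ≤ I₂ := h₂ I₂ (fun C hC => (hL _ ((m₂ C).mp hC)).2) id₂ e₂
      obtain ⟨C, hC⟩ := hs₁ A hA
      have h4 : B - C ∈ I₂ := h3 (s₂.sub_mem hB (hL _ hC).2)
      have h5 := L.add_mem hC ((m₂ _).mp h4)
      rw [Prod.mk_add_mk, add_zero, add_sub_cancel] at h5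
      exact h5
  · refine Or.inl fun A hA B hB => ?_
    have h3 : s₁ ≤ I₁ := h₁ I₁ (fun C hC => (hL _ ((m₁ C).mp hC)).1) id₁ e₁
    obtain ⟨C, hC⟩ := hs₂ B hB
    have h4 : A - C ∈ I₁ := h3 (s₁.sub_mem hA (hL _ hC).1)
    have h5 := L.add_mem hC ((m₁ _).mp h4)
    rw [Prod.mk_add_mk, add_zero, add_sub_cancel] at h5
    exact h5

/-- the bijection in the second case -/
theorem graph_equiv {R₁ R₂ : Type*} [AddCommGroup R₁] [Module K R₁] [AddCommGroup R₂]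
    [Module K R₂] (s₁ : Submodule K R₁) (s₂ : Submodule K R₂)
    (L : Submodule K (R₁ × R₂)) (hL : ∀ p ∈ L, p.1 ∈ s₁ ∧ p.2 ∈ s₂)
    (hs₁ : ∀ A ∈ s₁, ∃ B, (A, B) ∈ L) (hs₂ : ∀ B ∈ s₂, ∃ A, (A, B) ∈ L)
    (hg : ∀ p ∈ L, (p.1 = 0 ↔ p.2 = 0)) :
    ∃ f : s₁ ≃ₗ[K] s₂, ∀ A : s₁, ((A : R₁), (f A : R₂)) ∈ L := by
  let p₁ : L →ₗ[K] s₁ := ((LinearMap.fst K R₁ R₂).comp L.subtype).codRestrict s₁
    fun x => (hL _ x.2).1
  let p₂ : L →ₗ[K] s₂ := ((LinearMap.snd K R₁ R₂).comp L.subtype).codRestrict s₂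
    fun x => (hL _ x.2).2
  have b₁ : Function.Bijective p₁ := by
    constructor
    · rw [injective_iff_map_eq_zero]
      intro x hx
      have h1 : (x : R₁ × R₂).1 = 0 := congrArg (fun y : s₁ => (y : R₁)) hx
      exact Subtype.ext (Prod.ext h1 ((hg _ x.2).mp h1))
    · intro A
      obtain ⟨B, hB⟩ := hs₁ A A.2
      exact ⟨⟨_, hB⟩, rfl⟩
  have b₂ : Function.Bijective p₂ := by
    constructor
    · rw [injective_iff_map_eq_zero]
      intro x hx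
      have h1 : (x : R₁ × R₂).2 = 0 := congrArg (fun y : s₂ => (y : R₂)) hx
      exact Subtype.ext (Prod.ext ((hg _ x.2).mpr h1) h1)
    · intro A
      obtain ⟨B, hB⟩ := hs₂ A A.2
      exact ⟨⟨_, hB⟩, rfl⟩
  refine ⟨(LinearEquiv.ofBijective p₁ b₁).symm.trans (LinearEquiv.ofBijective p₂ b₂), ?_⟩
  intro A
  set x : L := (LinearEquiv.ofBijective p₁ b₁).symm A with hx
  have h1 : p₁ x = A := (LinearEquiv.ofBijective p₁ b₁).apply_symm_apply A
  have h2 : ((A : R₁), ((LinearEquiv.ofBijective p₂ b₂ x : s₂) : R₂)) = (x : R₁ × R₂) := by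
    rw [← h1]
    rfl
  show ((A : R₁), ((LinearEquiv.ofBijective p₂ b₂ x : s₂) : R₂)) ∈ L
  rw [h2]
  exact x.2

end MT.Grs
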