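import Pool.Agent.Helper14.MT.Adt

/-!
# Pairs of symplectic or orthogonal Lie algebras
-/

set_option autoImplicit false

open Matrix

namespace MT.Grs

open MT.Psr MT.Smp

variable {K : Type*} [Field K] {n : ℕ}

/-- both kinds of forms -/
structure Form (ε : K) (psi : Matrix (Fin n) (Fin n) K) : Prop where
  sign : (ε = 1 ∧ n ≠ 4) ∨ ε = -1
  symm : psi.transpose = ε • psi
  unit : IsUnit psi

theorem Form.sq {ε : K} {psi : Matrix (Fin n) (Fin n) K} (h : Form ε psi) : ε * ε = 1 := by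
  rcases h.sign with ⟨h1, _⟩ | h1
  · rw [h1, one_mul]
  · rw [h1, neg_mul_neg, one_mul]

theorem Form.simple [CharZero K] {ε : K} {psi : Matrix (Fin n) (Fin n) K} (h : Form ε psi)
    (I : Submodule K (Matrix (Fin n) (Fin n) K)) (hI : I ≤ isoS psi)
    (hid : ∀ A ∈ I, ∀ B ∈ isoS psi, B * A - A * B ∈ I) (hne : I ≠ ⊥) : isoS psi ≤ I := by
  rcases h.sign with ⟨h1, hn⟩ | h1
  · have hs : psi.transpose = psi := by rw [h.symm, h1, one_smul]
    exact fun B hB => so_ideal hs h.unit hn I (fun A hA => hI hA) hid hne B hB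
  · have hs : psi.transpose = -psi := by rw [h.symm, h1, neg_one_smul]
    exact fun B hB => sp_ideal hs h.unit I (fun A hA => hI hA) hid hne B hB

theorem isoS_bracket {psi A B : Matrix (Fin n) (Fin n) K} (hA : A ∈ isoS psi)
    (hB : B ∈ isoS psi) : A * B - B * A ∈ isoS psi := by
  rw [mem_isoS] at hA hB ⊢
  have h1 : A.transpose * psi = -(psi * A) := eq_neg_of_add_eq_zero_left hA
  have h2 : B.transpose * psi = -(psi * B) := eq_neg_of_add_eq_zero_left hB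
  unfold Iso
  rw [transpose_sub, transpose_mul, transpose_mul, sub_mul, Matrix.mul_assoc, h1,
    Matrix.mul_assoc, h2, mul_neg, mul_neg, ← Matrix.mul_assoc, ← Matrix.mul_assoc, h1, h2, mul_sub,
    neg_mul, neg_mul, neg_neg, neg_neg, Matrix.mul_assoc, Matrix.mul_assoc]
  abel

theorem isoS_conj {psi g gi A : Matrix (Fin n) (Fin n) K} {μ : K} (hg : g * gi = 1) (hμ : μ ≠ 0)
    (hsim : g.transpose * psi * g = μ • psi) (hA : A ∈ isoS psi) : g * A * gi ∈ isoS psi := by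
  rw [mem_isoS] at hA ⊢
  have hgi : gi * g = 1 := mul_eq_one_comm.mp hg
  have h1 : A.transpose * psi = -(psi * A) := eq_neg_of_add_eq_zero_left hA
  -- `psi * g = μ • gi.transpose * psi`, `g.transpose * psi = μ • psi * gi`
  have h2 : g.transpose * psi = μ • (psi * gi) := by
    calc g.transpose * psi = (g.transpose * psi * g) * gi := by
          rw [Matrix.mul_assoc (g.transpose * psi), hg, Matrix.mul_one]
      _ = μ • (psi * gi) := by rw [hsim, smul_mul_assoc]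
  have h3 : psi * g = μ • (gi.transpose * psi) := by
    calc psi * g = (gi.transpose * g.transpose) * (psi * g) := by
          rw [← Matrix.transpose_mul, hg, Matrix.transpose_one, Matrix.one_mul]
      _ = gi.transpose * (g.transpose * psi * g) := by simp only [Matrix.mul_assoc]
      _ = μ • (gi.transpose * psi) := by rw [hsim, mul_smul_comm]
  unfold Iso
  have h4 : (g * A * gi).transpose * psi = - (μ • (gi.transpose * (psi * A) * gi)) := by
    rw [Matrix.transpose_mul, Matrix.transpose_mul, Matrix.mul_assoc, Matrix.mul_assoc, h2,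
      mul_smul_comm, mul_smul_comm, ← Matrix.mul_assoc A.transpose, h1, neg_mul, mul_neg, smul_neg,
      ← Matrix.mul_assoc]
  have h5 : psi * (g * A * gi) = μ • (gi.transpose * (psi * A) * gi) := by
    rw [← Matrix.mul_assoc, ← Matrix.mul_assoc, h3, smul_mul_assoc, smul_mul_assoc]
    simp only [Matrix.mul_assoc]
  rw [h4, h5, neg_add_cancel]

/-- conjugation on the Lie algebra -/
def conjT {psi g gi : Matrix (Fin n) (Fin n) K} {μ : K} (hg : g * gi = 1) (hμ : μ ≠ 0)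
    (hsim : g.transpose * psi * g = μ • psi) : isoS psi →ₗ[K] isoS psi :=
  (mulLR g gi).restrict fun _ hA => isoS_conj hg hμ hsim hA

/-- perfectness -/
theorem Form.perfect [CharZero K] {ε : K} {psi : Matrix (Fin n) (Fin n) K} (h : Form ε psi)
    (hne : ∃ A ∈ isoS psi, ∃ B ∈ isoS psi, A * B - B * A ≠ 0) :
    ∀ A ∈ isoS psi, A ∈ Submodule.span K
      {C | ∃ X ∈ isoS psi, ∃ Y ∈ isoS psi, C = X * Y - Y * X} := by
  set I : Submodule K (Matrix (Fin n) (Fin n) K) := Submodule.span K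
      {C | ∃ X ∈ isoS psi, ∃ Y ∈ isoS psi, C = X * Y - Y * X} with hI
  have hle : I ≤ isoS psi := by
    rw [hI, Submodule.span_le]
    rintro C ⟨X, hX, Y, hY, rfl⟩
    exact isoS_bracket hX hY
  refine h.simple I hle ?_ ?_
  · intro A hA B hB
    exact Submodule.subset_span ⟨B, hB, A, hle hA, rfl⟩
  · obtain ⟨A, hA, B, hB, h0⟩ := hne
    intro h1
    have h2 : A * B - B * A ∈ I := Submodule.subset_span ⟨A, hA, B, hB, rfl⟩
    rw [h1] at h2
    exact h0 ((Submodule.mem_bot K).mp h2)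

theorem nonabelian_sp [CharZero K] {psi : Matrix (Fin n) (Fin n) K} (hs : psi.transpose = -psi)
    (hu : IsUnit psi) (hn : 1 ≤ n) : ∃ A ∈ isoS psi, ∃ B ∈ isoS psi, A * B - B * A ≠ 0 := by
  let u : Fin n → K := Pi.single ⟨0, hn⟩ 1
  have hu0 : u ≠ 0 := by
    intro h
    have h1 := congrFun h ⟨0, hn⟩
    simp only [u, Pi.single_eq_same, Pi.zero_apply] at h1
    exact one_ne_zero h1
  have h1 : ∃ y, pf psi u y ≠ 0 := by
    by_contra h
    push Not at h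
    exact hu0 (pf_nondeg hu h)
  obtain ⟨y, hy⟩ := h1
  refine ⟨XX psi u, iso_XX hs u, XX psi y, iso_XX hs y, ?_⟩
  rw [bracket_XX hs]
  intro h2
  have hy' : pf psi y u ≠ 0 := by
    rw [pf_neg hs]
    exact neg_ne_zero.mpr hy
  have h3 := (smul_eq_zero.mp h2).resolve_left hy'
  have h4 : BB psi u y *ᵥ u = 0 := by rw [h3, zero_mulVec]
  have huu : pf psi u u = 0 := by
    have h5 := pf_neg hs u u
    have h6 : (2 : K) * pf psi u u = 0 := by linear_combination h5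
    exact (mul_eq_zero.mp h6).resolve_left two_ne_zero
  rw [BB_mulVec, huu, zero_smul, add_zero] at h4
  exact hu0 ((smul_eq_zero.mp h4).resolve_left hy)

theorem nonabelian_so [CharZero K] {psi : Matrix (Fin n) (Fin n) K} (hs : psi.transpose = psi)
    (hu : IsUnit psi) (hn : 3 ≤ n) : ∃ A ∈ isoS psi, ∃ B ∈ isoS psi, A * B - B * A ≠ 0 := by
  obtain ⟨b, ho, hd⟩ := ortho_basis hs hu
  have h01 : (⟨0, by omega⟩ : Fin n) ≠ ⟨1, by omega⟩ := by
    intro h
    rw [Fin.mk.injEq] at h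
    omega
  have h02 : (⟨0, by omega⟩ : Fin n) ≠ ⟨2, by omega⟩ := by
    intro h
    rw [Fin.mk.injEq] at h
    omega
  have h12 : (⟨1, by omega⟩ : Fin n) ≠ ⟨2, by omega⟩ := by
    intro h
    rw [Fin.mk.injEq] at h
    omega
  set b0 := b ⟨0, by omega⟩ with hb0
  set b1 := b ⟨1, by omega⟩ with hb1
  set b2 := b ⟨2, by omega⟩ with hb2
  refine ⟨WW psi b0 b1, iso_WW hs _ _, WW psi b1 b2, iso_WW hs _ _, ?_⟩
  rw [bracket_WW (iso_WW hs _ _), WW_mulVec, WW_mulVec, ho _ _ h01.symm, ho _ _ h02.symm,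
    ho _ _ h12.symm, zero_smul, zero_smul, zero_sub, sub_zero]
  have h6 : WW psi b1 0 = 0 := by
    unfold WW
    ext a c
    simp [vecMulVec_apply]
  rw [h6, add_zero]
  intro h
  have h7 : WW psi (-(pf psi b1 b1 • b0)) b2 *ᵥ b0 = 0 := by rw [h, zero_mulVec]
  have h8 : pf psi b0 (-(pf psi b1 b1 • b0)) = -(pf psi b1 b1 * pf psi b0 b0) := by
    rw [← neg_smul, pf_smul_right, neg_mul]
  rw [WW_mulVec, h8, ho _ _ h02, zero_smul, sub_zero] at h7
  have h9 := (smul_eq_zero.mp h7).resolve_left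
    (neg_ne_zero.mpr (mul_ne_zero (hd _) (hd _)))
  exact b.ne_zero _ h9

/-- A subalgebra of the product of two symplectic or orthogonal Lie algebras, surjecting onto both,
is everything, or all elements of its normaliser have matching adjoint traces. -/
theorem pair [CharZero K] {n₁ n₂ : ℕ} {ε₁ ε₂ : K} {psi₁ : Matrix (Fin n₁) (Fin n₁) K}
    {psi₂ : Matrix (Fin n₂) (Fin n₂) K} (h₁ : Form ε₁ psi₁) (h₂ : Form ε₂ psi₂)
    (L : Submodule K (Matrix (Fin n₁) (Fin n₁) K × Matrix (Fin n₂) (Fin n₂) K))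
    (hL : ∀ p ∈ L, p.1 ∈ isoS psi₁ ∧ p.2 ∈ isoS psi₂)
    (hbr : ∀ p ∈ L, ∀ q ∈ L, p * q - q * p ∈ L)
    (hs₁ : ∀ A ∈ isoS psi₁, ∃ B, (A, B) ∈ L) (hs₂ : ∀ B ∈ isoS psi₂, ∃ A, (A, B) ∈ L) :
    (∀ A ∈ isoS psi₁, ∀ B ∈ isoS psi₂, (A, B) ∈ L) ∨
    ∀ (g₁ gi₁ : Matrix (Fin n₁) (Fin n₁) K) (g₂ gi₂ : Matrix (Fin n₂) (Fin n₂) K) (μ₁ μ₂ : K),
      g₁ * gi₁ = 1 → g₂ * gi₂ = 1 → μ₁ ≠ 0 → μ₂ ≠ 0 →
      g₁.transpose * psi₁ * g₁ = μ₁ • psi₁ → g₂.transpose * psi₂ * g₂ = μ₂ • psi₂ →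
      (∀ p ∈ L, (g₁ * p.1 * gi₁, g₂ * p.2 * gi₂) ∈ L) →
      μ₂ * (g₁.trace ^ 2 - ε₁ * (g₁ * g₁).trace) = μ₁ * (g₂.trace ^ 2 - ε₂ * (g₂ * g₂).trace) ∧
      ((∀ A ∈ isoS psi₁, g₁ * A * gi₁ = A) ↔ ∀ B ∈ isoS psi₂, g₂ * B * gi₂ = B) := by
  rcases goursat (isoS psi₁) (isoS psi₂) h₁.simple h₂.simple L hL hbr hs₁ hs₂ with h | h
  · exact Or.inl h
  refine Or.inr ?_
  intro g₁ gi₁ g₂ gi₂ μ₁ μ₂ hg₁ hg₂ hμ₁ hμ₂ hsim₁ hsim₂ hnorm
  obtain ⟨f, hf⟩ := graph_equiv (isoS psi₁) (isoS psi₂) L hL hs₁ hs₂ h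
  let T₁ := conjT hg₁ hμ₁ hsim₁
  let T₂ := conjT hg₂ hμ₂ hsim₂
  have hfT : ∀ A, f (T₁ A) = T₂ (f A) := by
    intro A
    have e1 := hf (T₁ A)
    have e2 := hnorm _ (hf A)
    have e3 := L.sub_mem e1 e2
    have e4 : ((T₁ A : Matrix (Fin n₁) (Fin n₁) K), ((f (T₁ A) : isoS psi₂) :
        Matrix (Fin n₂) (Fin n₂) K)) - (g₁ * (A : Matrix (Fin n₁) (Fin n₁) K) * gi₁,
          g₂ * ((f A : isoS psi₂) : Matrix (Fin n₂) (Fin n₂) K) * gi₂) =
        (0, ((f (T₁ A) : isoS psi₂) : Matrix (Fin n₂) (Fin n₂) K) -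
          g₂ * ((f A : isoS psi₂) : Matrix (Fin n₂) (Fin n₂) K) * gi₂) := by
      rw [Prod.mk_sub_mk]
      refine Prod.ext ?_ rfl
      exact sub_self (g₁ * (A : Matrix (Fin n₁) (Fin n₁) K) * gi₁)
    rw [e4] at e3
    have e5 := (h _ e3).mp rfl
    refine Subtype.ext ?_
    exact eq_of_sub_eq_zero e5
  constructor
  · have htr : LinearMap.trace K _ T₁ = LinearMap.trace K _ T₂ := by
      have h3 : f.conj T₁ = T₂ := by
        refine LinearMap.ext fun B => ?_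
        rw [LinearEquiv.conj_apply_apply, hfT, LinearEquiv.apply_symm_apply]
      rw [← h3, LinearMap.trace_conj']
    have a₁ := ad_trace h₁.sq h₁.symm h₁.unit hg₁ hμ₁ hsim₁ T₁ (fun _ => rfl)
    have a₂ := ad_trace h₂.sq h₂.symm h₂.unit hg₂ hμ₂ hsim₂ T₂ (fun _ => rfl)
    rw [← a₁, ← a₂, htr]
    ring
  · constructor
    · intro h3 B hB
      obtain ⟨A, hA⟩ := f.surjective ⟨B, hB⟩
      have h4 := hfT A
      have h5 : T₁ A = A := Subtype.ext (h3 A A.2)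
      rw [h5, hA] at h4
      exact (congrArg (fun y : isoS psi₂ => (y : Matrix (Fin n₂) (Fin n₂) K)) h4).symm
    · intro h3 A hA
      have h4 := hfT ⟨A, hA⟩
      have h5 : T₂ (f ⟨A, hA⟩) = f ⟨A, hA⟩ := Subtype.ext (h3 _ (f ⟨A, hA⟩).2)
      rw [h5] at h4
      exact congrArg (fun y : isoS psi₁ => (y : Matrix (Fin n₁) (Fin n₁) K)) (f.injective h4)

end MT.Grs
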