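import Pool.Agent.Helper14.MT.Sp

/-!
# The orthogonal Lie algebra is simple

Matrices over a field of characteristic zero; `psi` is a non-degenerate symmetric form in `n ≠ 4`
variables. Every nonzero subspace of `so(psi)` which is stable under brackets with `so(psi)` is
everything.
-/

set_option autoImplicit false

open Matrix

namespace MT.Smp

open MT.Psr

variable {K : Type*} [Field K] {n : ℕ}

theorem WW_mulVec (psi : Matrix (Fin n) (Fin n) K) (v u x : Fin n → K) :
    WW psi v u *ᵥ x = pf psi x v • u - pf psi x u • v := by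
  unfold WW
  rw [sub_mulVec, vmv_mulVec, vmv_mulVec, pf_eq, pf_eq]

theorem iso_WW {psi : Matrix (Fin n) (Fin n) K} (hpsi : psi.transpose = psi)
    (v u : Fin n → K) : Iso psi (WW psi v u) := by
  unfold Iso WW
  have h : ∀ a b : Fin n → K, (vecMulVec a (psi *ᵥ b)).transpose * psi =
      vecMulVec (psi *ᵥ b) (psi *ᵥ a) := by
    intro a b
    rw [transpose_vecMulVec, vecMulVec_mul', hpsi]
  rw [transpose_sub, sub_mul, mul_sub, h, h, mul_vecMulVec', mul_vecMulVec']
  abel

theorem ortho_basis [CharZero K] {psi : Matrix (Fin n) (Fin n) K} (hpsi : psi.transpose = psi)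
    (hu : IsUnit psi) : ∃ b : Module.Basis (Fin n) K (Fin n → K),
      (∀ i j, i ≠ j → pf psi (b i) (b j) = 0) ∧ ∀ i, pf psi (b i) (b i) ≠ 0 := by
  classical
  have hinv : Invertible (2 : K) := invertibleOfNonzero two_ne_zero
  let B : LinearMap.BilinForm K (Fin n → K) := Matrix.toBilin' psi
  have hBa : ∀ x y, B x y = pf psi x y := fun x y => Matrix.toBilin'_apply' psi x y
  have hBs : LinearMap.IsSymm B := by
    constructor
    intro x y
    change B x y = B y x
    rw [hBa, hBa, pf_symm hpsi]
  obtain ⟨v, hv⟩ := LinearMap.BilinForm.exists_orthogonal_basis hBs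
  have hfr : Module.finrank K (Fin n → K) = n := by simp
  let b : Module.Basis (Fin n) K (Fin n → K) := v.reindex (finCongr hfr)
  have ho : ∀ i j, i ≠ j → pf psi (b i) (b j) = 0 := by
    intro i j hij
    rw [← hBa]
    simp only [b, Module.Basis.reindex_apply]
    exact hv (fun h => hij ((finCongr hfr).symm.injective h))
  refine ⟨b, ho, ?_⟩
  intro i h0
  have h1 : ∀ j, pf psi (b i) (b j) = 0 := by
    intro j
    by_cases hij : i = j
    · rw [← hij, h0]
    · exact ho i j hij
  have h2 : ∀ x, pf psi (b i) x = 0 := by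
    intro x
    have h3 : B (b i) = 0 := by
      apply b.ext
      intro j
      rw [LinearMap.zero_apply, hBa, h1]
    rw [← hBa, h3, LinearMap.zero_apply]
  exact b.ne_zero i (pf_nondeg hu h2)

section coord

variable (psi : Matrix (Fin n) (Fin n) K) (b : Fin n → (Fin n → K))

/-- coordinates of an element of the orthogonal Lie algebra -/
def co (A : Matrix (Fin n) (Fin n) K) (i j : Fin n) : K := pf psi (A *ᵥ b i) (b j)

theorem co_anti {psi : Matrix (Fin n) (Fin n) K} (hpsi : psi.transpose = psi)
    {A : Matrix (Fin n) (Fin n) K} (hA : Iso psi A) (i j : Fin n) :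
    co psi b A i j = - co psi b A j i := by
  unfold co
  rw [pf_sp hA, pf_symm hpsi]

theorem co_diag [CharZero K] {psi : Matrix (Fin n) (Fin n) K} (hpsi : psi.transpose = psi)
    {A : Matrix (Fin n) (Fin n) K} (hA : Iso psi A) (i : Fin n) :
    co psi b A i i = 0 := by
  have h := co_anti b hpsi hA i i
  have h2 : (2 : K) * co psi b A i i = 0 := by linear_combination h
  exact (mul_eq_zero.mp h2).resolve_left two_ne_zero

theorem pf_ite (ho : ∀ i j, i ≠ j → pf psi (b i) (b j) = 0) (i j : Fin n) :
    pf psi (b i) (b j) = if i = j then pf psi (b j) (b j) else 0 := by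
  by_cases h : i = j
  · rw [if_pos h, h]
  · rw [if_neg h, ho i j h]

/-- bracket with `WW (b k) (b l)` in coordinates -/
theorem co_bracket (hpsi : psi.transpose = psi) (ho : ∀ i j, i ≠ j → pf psi (b i) (b j) = 0)
    (k l : Fin n) (A : Matrix (Fin n) (Fin n) K) (i j : Fin n) :
    co psi b (WW psi (b k) (b l) * A - A * WW psi (b k) (b l)) i j =
      -(if j = k then pf psi (b k) (b k) * co psi b A i l else 0) +
      (if j = l then pf psi (b l) (b l) * co psi b A i k else 0) -
      (if i = k then pf psi (b k) (b k) * co psi b A l j else 0) +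
      (if i = l then pf psi (b l) (b l) * co psi b A k j else 0) := by
  unfold co
  rw [sub_mulVec, ← mulVec_mulVec, ← mulVec_mulVec]
  have h1 : pf psi (WW psi (b k) (b l) *ᵥ (A *ᵥ b i) - A *ᵥ (WW psi (b k) (b l) *ᵥ b i)) (b j) =
      pf psi (WW psi (b k) (b l) *ᵥ (A *ᵥ b i)) (b j) -
        pf psi (A *ᵥ (WW psi (b k) (b l) *ᵥ b i)) (b j) := by
    rw [sub_eq_add_neg, pf_add_left]
    have : - (A *ᵥ (WW psi (b k) (b l) *ᵥ b i)) =
        (-1 : K) • (A *ᵥ (WW psi (b k) (b l) *ᵥ b i)) := by rw [neg_one_smul]
    rw [this, pf_smul_left]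
    ring
  rw [h1, pf_sp (iso_WW hpsi _ _)]
  have h2 : ∀ m, WW psi (b k) (b l) *ᵥ b m =
      (if m = k then pf psi (b k) (b k) else 0) • b l +
        (-(if m = l then pf psi (b l) (b l) else 0)) • b k := by
    intro m
    rw [WW_mulVec, pf_ite psi b ho m k, pf_ite psi b ho m l, sub_eq_add_neg, neg_smul]
  rw [h2 j, h2 i, pf_add_right, pf_smul_right, pf_smul_right, mulVec_add, mulVec_smul,
    mulVec_smul, pf_add_left, pf_smul_left, pf_smul_left]
  split_ifs <;> ring

/-- the double bracket -/
theorem co_double [CharZero K] (hpsi : psi.transpose = psi)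
    (ho : ∀ i j, i ≠ j → pf psi (b i) (b j) = 0)
    (k l : Fin n) (hkl : k ≠ l) (A : Matrix (Fin n) (Fin n) K) (hA : Iso psi A) (i j : Fin n)
    (hij : i ≠ j) :
    co psi b (WW psi (b k) (b l) * (WW psi (b k) (b l) * A - A * WW psi (b k) (b l)) -
      (WW psi (b k) (b l) * A - A * WW psi (b k) (b l)) * WW psi (b k) (b l)) i j =
      if ¬ ((i = k ∨ i = l) ↔ (j = k ∨ j = l)) then
        -(pf psi (b k) (b k) * pf psi (b l) (b l)) * co psi b A i j else 0 := by
  have hd := fun i => co_diag b hpsi hA i
  have ha := fun i j => co_anti b hpsi hA i j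
  rw [co_bracket psi b hpsi ho, co_bracket psi b hpsi ho, co_bracket psi b hpsi ho,
    co_bracket psi b hpsi ho, co_bracket psi b hpsi ho]
  by_cases h1 : i = k
  · subst h1
    by_cases h2 : j = l
    · subst h2
      simp [hij, hij.symm, hd, ha j i]
    · simp [hkl, hkl.symm, hij, hij.symm, h2, hd]
      ring
  · by_cases h3 : i = l
    · subst h3
      by_cases h4 : j = k
      · subst h4
        simp [hij, hij.symm, hd, ha j i]
      · simp [hkl, hkl.symm, hij, hij.symm, h4, hd]
        ring
    · by_cases h5 : j = k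
      · subst h5
        simp [hkl, hkl.symm, hij, hij.symm, h1, h3, hd]
        ring
      · by_cases h6 : j = l
        · subst h6
          simp [hkl, hkl.symm, hij, hij.symm, h1, h3, hd]
          ring
        · simp [h1, h3, h5, h6]

end coord

/-- combinatorics of pairs -/
theorem pair_sep (hn : n ≠ 4) {i j i' j' : Fin n} (hij : i ≠ j) (hij' : i' ≠ j')
    (h1 : ¬ (i' = i ∧ j' = j)) (h2 : ¬ (i' = j ∧ j' = i)) :
    ∃ k l, k ≠ l ∧ ((¬ ((i = k ∨ i = l) ↔ (j = k ∨ j = l)) ∧
        ((i' = k ∨ i' = l) ↔ (j' = k ∨ j' = l))) ∨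
      (((i = k ∨ i = l) ↔ (j = k ∨ j = l)) ∧
        ¬ ((i' = k ∨ i' = l) ↔ (j' = k ∨ j' = l)))) := by
  by_cases h : i' = i ∨ i' = j ∨ j' = i ∨ j' = j
  · refine ⟨i, j, hij, Or.inr ⟨by tauto, ?_⟩⟩
    intro h3
    rcases h with h | h | h | h
    · subst h
      have h4 := h3.mp (Or.inl rfl)
      rcases h4 with h4 | h4
      · exact hij' h4.symm
      · exact h1 ⟨rfl, h4⟩
    · subst h
      have h4 := h3.mp (Or.inr rfl)
      rcases h4 with h4 | h4
      · exact h2 ⟨rfl, h4⟩
      · exact hij' h4.symm
    · subst h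
      have h4 := h3.mpr (Or.inl rfl)
      rcases h4 with h4 | h4
      · exact hij' h4
      · exact h2 ⟨h4, rfl⟩
    · subst h
      have h4 := h3.mpr (Or.inr rfl)
      rcases h4 with h4 | h4
      · exact h1 ⟨h4, rfl⟩
      · exact hij' h4
  · push Not at h
    obtain ⟨h3, h4, h5, h6⟩ := h
    have hcard : ({i, j, i', j'} : Finset (Fin n)).card = 4 := by
      rw [Finset.card_insert_of_notMem, Finset.card_insert_of_notMem,
        Finset.card_insert_of_notMem, Finset.card_singleton]
      · simpa using hij'
      · simp only [Finset.mem_insert, Finset.mem_singleton, not_or]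
        exact ⟨h4.symm, h6.symm⟩
      · simp only [Finset.mem_insert, Finset.mem_singleton, not_or]
        exact ⟨hij, h3.symm, h5.symm⟩
    have hex : ∃ m, m ∉ ({i, j, i', j'} : Finset (Fin n)) := by
      by_contra hno
      push Not at hno
      have h7 : ({i, j, i', j'} : Finset (Fin n)) = Finset.univ := by
        ext m
        simp only [Finset.mem_univ, iff_true]
        exact hno m
      rw [h7, Finset.card_univ, Fintype.card_fin] at hcard
      exact hn hcard
    obtain ⟨m, hm⟩ := hex
    simp only [Finset.mem_insert, Finset.mem_singleton, not_or] at hm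
    obtain ⟨m1, m2, m3, m4⟩ := hm
    refine ⟨i, m, fun h => m1 h.symm, Or.inl ⟨?_, ?_⟩⟩
    · intro h7
      have h8 := h7.mp (Or.inl rfl)
      rcases h8 with h8 | h8
      · exact hij h8.symm
      · exact m2 h8.symm
    · constructor
      · intro h7
        rcases h7 with h7 | h7
        · exact absurd h7 h3
        · exact absurd h7.symm m3
      · intro h7
        rcases h7 with h7 | h7
        · exact absurd h7 h5
        · exact absurd h7.symm m4

theorem co_zero [CharZero K] {psi : Matrix (Fin n) (Fin n) K} (hu : IsUnit psi)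
    (b : Module.Basis (Fin n) K (Fin n → K)) {A : Matrix (Fin n) (Fin n) K}
    (h : ∀ i j, co psi b A i j = 0) : A = 0 := by
  have h1 : ∀ i, A *ᵥ b i = 0 := by
    intro i
    refine pf_nondeg hu ?_
    intro y
    have hy : y ∈ Submodule.span K (Set.range b) := by rw [b.span_eq]; trivial
    induction hy using Submodule.span_induction with
    | mem y hy =>
      obtain ⟨j, rfl⟩ := hy
      exact h i j
    | zero => exact pf_zero_right psi _
    | add y z _ _ h1 h2 => rw [pf_add_right, h1, h2, add_zero]
    | smul c y _ h1 => rw [pf_smul_right, h1, mul_zero]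
  have h2 : A.mulVecLin = 0 := by
    apply b.ext
    intro i
    rw [Matrix.mulVecLin_apply, h1, LinearMap.zero_apply]
  have h3 := congrArg LinearMap.toMatrix' h2
  rw [map_zero] at h3
  rw [← h3]
  exact (LinearMap.toMatrix'_toLin' A).symm

/-- `so(psi)` is simple in `n ≠ 4` variables -/
theorem so_ideal [CharZero K] {psi : Matrix (Fin n) (Fin n) K} (hpsi : psi.transpose = psi)
    (hu : IsUnit psi) (hn : n ≠ 4) (I : Submodule K (Matrix (Fin n) (Fin n) K))
    (hI : ∀ A ∈ I, Iso psi A)
    (hid : ∀ A ∈ I, ∀ B, Iso psi B → B * A - A * B ∈ I) (hne : I ≠ ⊥)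
    (B : Matrix (Fin n) (Fin n) K) (hB : Iso psi B) : B ∈ I := by
  classical
  obtain ⟨b, ho, hd⟩ := ortho_basis hpsi hu
  obtain ⟨A₀, hA₀, hA₀0⟩ := Submodule.exists_mem_ne_zero_of_ne_bot hne
  let S : Matrix (Fin n) (Fin n) K → Finset (Fin n × Fin n) := fun A =>
    Finset.univ.filter fun p => co psi b A p.1 p.2 ≠ 0
  have hex : ∃ m, ∃ A ∈ I, A ≠ 0 ∧ (S A).card = m := ⟨_, A₀, hA₀, hA₀0, rfl⟩
  obtain ⟨A, hA, hA0, hAm⟩ := Nat.find_spec hex
  have hmin : ∀ C ∈ I, C ≠ 0 → (S A).card ≤ (S C).card := by
    intro C hC hC0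
    rw [hAm]
    exact Nat.find_min' hex ⟨C, hC, hC0, rfl⟩
  have hIA := hI A hA
  -- a nonzero coordinate
  have h1 : ∃ i j, co psi b A i j ≠ 0 := by
    by_contra h
    push Not at h
    exact hA0 (co_zero hu b h)
  obtain ⟨i, j, hij0⟩ := h1
  have hij : i ≠ j := by
    intro h
    rw [h, co_diag b hpsi hIA] at hij0
    exact hij0 rfl
  -- all the other ones vanish
  have h2 : ∀ i' j', ¬ (i' = i ∧ j' = j) → ¬ (i' = j ∧ j' = i) → co psi b A i' j' = 0 := by
    intro i' j' e1 e2
    by_contra h0
    have hij' : i' ≠ j' := by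
      intro h
      rw [h, co_diag b hpsi hIA] at h0
      exact h0 rfl
    obtain ⟨k, l, hkl, hsep⟩ := pair_sep hn hij hij' e1 e2
    have hW := iso_WW hpsi (b k) (b l)
    set T : Matrix (Fin n) (Fin n) K := WW psi (b k) (b l) * A - A * WW psi (b k) (b l) with hT
    have hTI : T ∈ I := hid A hA _ hW
    set Q : Matrix (Fin n) (Fin n) K := WW psi (b k) (b l) * T - T * WW psi (b k) (b l) with hQ
    have hQI : Q ∈ I := hid T hTI _ hW
    have hQc : ∀ a c, a ≠ c → co psi b Q a c =
        if ¬ ((a = k ∨ a = l) ↔ (c = k ∨ c = l)) then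
          -(pf psi (b k) (b k) * pf psi (b l) (b l)) * co psi b A a c else 0 := fun a c hac =>
      co_double psi b hpsi ho k l hkl A hIA a c hac
    have hIQ := hI Q hQI
    have hkk : -(pf psi (b k) (b k) * pf psi (b l) (b l)) ≠ 0 :=
      neg_ne_zero.mpr (mul_ne_zero (hd k) (hd l))
    have hQsub : S Q ⊆ S A := by
      intro p hp
      simp only [S, Finset.mem_filter, Finset.mem_univ, true_and] at hp ⊢
      have hpp : p.1 ≠ p.2 := by
        intro h
        rw [h, co_diag b hpsi hIQ] at hp
        exact hp rfl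
      rw [hQc _ _ hpp] at hp
      intro h
      rw [h, mul_zero, ite_self] at hp
      exact hp rfl
    -- one of the two pairs is lost, the other one stays
    have key : ∃ p q : Fin n × Fin n, p ∈ S Q ∧ q ∈ S A ∧ q ∉ S Q := by
      rcases hsep with ⟨u1, u2⟩ | ⟨u1, u2⟩
      · refine ⟨(i, j), (i', j'), ?_, ?_, ?_⟩
        · simp only [S, Finset.mem_filter, Finset.mem_univ, true_and]
          rw [hQc i j hij, if_pos u1]
          exact mul_ne_zero hkk hij0
        · simp only [S, Finset.mem_filter, Finset.mem_univ, true_and]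
          exact h0
        · simp only [S, Finset.mem_filter, Finset.mem_univ, true_and, not_not]
          rw [hQc i' j' hij', if_neg (not_not.mpr u2)]
      · refine ⟨(i', j'), (i, j), ?_, ?_, ?_⟩
        · simp only [S, Finset.mem_filter, Finset.mem_univ, true_and]
          rw [hQc i' j' hij', if_pos u2]
          exact mul_ne_zero hkk h0
        · simp only [S, Finset.mem_filter, Finset.mem_univ, true_and]
          exact hij0
        · simp only [S, Finset.mem_filter, Finset.mem_univ, true_and, not_not]
          rw [hQc i j hij, if_neg (not_not.mpr u1)]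
    obtain ⟨p, q, hp, hq, hq'⟩ := key
    have hQ0 : Q ≠ 0 := by
      intro h
      simp only [S, Finset.mem_filter, Finset.mem_univ, true_and] at hp
      apply hp
      rw [h]
      unfold co
      rw [zero_mulVec, pf_zero_left]
    have hlt : (S Q).card < (S A).card :=
      Finset.card_lt_card ⟨hQsub, fun h => hq' (h hq)⟩
    exact absurd (hmin Q hQI hQ0) (not_le.mpr hlt)
  -- `A` is a multiple of `WW (b i) (b j)`
  have hWc : ∀ i' j', co psi b (WW psi (b i) (b j)) i' j' =
      (if i' = i then pf psi (b i) (b i) else 0) * (if j' = j then pf psi (b j) (b j) else 0) -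
      (if i' = j then pf psi (b j) (b j) else 0) * (if j' = i then pf psi (b i) (b i) else 0) := by
    intro i' j'
    unfold co
    rw [WW_mulVec, sub_eq_add_neg, ← neg_smul, pf_add_left, pf_smul_left, pf_smul_left,
      pf_ite psi b ho i' i, pf_ite psi b ho i' j, pf_symm hpsi (b j) (b j'),
      pf_symm hpsi (b i) (b j'), pf_ite psi b ho j' j, pf_ite psi b ho j' i]
    ring
  have h3 : WW psi (b i) (b j) ∈ I := by
    set c : K := co psi b A i j / (pf psi (b i) (b i) * pf psi (b j) (b j)) with hc
    have hc0 : c ≠ 0 := div_ne_zero hij0 (mul_ne_zero (hd i) (hd j))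
    have h4 : A + (-c) • WW psi (b i) (b j) = 0 := by
      refine co_zero hu b ?_
      intro i' j'
      have h5 : co psi b (A + (-c) • WW psi (b i) (b j)) i' j' =
          co psi b A i' j' + (-c) * co psi b (WW psi (b i) (b j)) i' j' := by
        unfold co
        rw [add_mulVec, smul_mulVec, pf_add_left, pf_smul_left]
      rw [h5, hWc]
      have hdi := hd i
      have hdj := hd j
      by_cases e1 : i' = i ∧ j' = j
      · obtain ⟨rfl, rfl⟩ := e1
        rw [if_pos rfl, if_pos rfl, if_neg hij, if_neg hij.symm, hc]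
        field_simp
        ring
      · by_cases e2 : i' = j ∧ j' = i
        · obtain ⟨rfl, rfl⟩ := e2
          rw [if_neg hij.symm, if_neg hij, if_pos rfl, if_pos rfl, hc, co_anti b hpsi hIA]
          field_simp
          ring
        · rw [h2 i' j' e1 e2]
          have e3 : (if i' = i then pf psi (b i) (b i) else 0) *
              (if j' = j then pf psi (b j) (b j) else 0) = 0 := by
            by_cases f1 : i' = i
            · have f2 : ¬ j' = j := fun h => e1 ⟨f1, h⟩
              rw [if_neg f2, mul_zero]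
            · rw [if_neg f1, zero_mul]
          have e4 : (if i' = j then pf psi (b j) (b j) else 0) *
              (if j' = i then pf psi (b i) (b i) else 0) = 0 := by
            by_cases f1 : i' = j
            · have f2 : ¬ j' = i := fun h => e2 ⟨f1, h⟩
              rw [if_neg f2, mul_zero]
            · rw [if_neg f1, zero_mul]
          rw [e3, e4]
          ring
    have h5 : A = c • WW psi (b i) (b j) := by
      rw [neg_smul] at h4
      exact eq_of_sub_eq_zero (by rw [sub_eq_add_neg]; exact h4)
    rw [h5] at hA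
    exact (Submodule.smul_mem_iff _ hc0).mp hA
  -- all `WW (b k) (b l)`
  have step : ∀ k l m : Fin n, k ≠ l → WW psi (b k) (b l) ∈ I → WW psi (b k) (b m) ∈ I := by
    intro k l m hkl h
    by_cases hml : m = l
    · rw [hml]; exact h
    by_cases hmk : m = k
    · rw [hmk, WW_self]; exact I.zero_mem
    have h5 := hid _ h _ (iso_WW hpsi (b l) (b m))
    rw [bracket_WW (iso_WW hpsi (b l) (b m)), WW_mulVec, WW_mulVec, ho k l hkl,
      ho k m (fun h => hmk h.symm), ho l m (fun h => hml h.symm), zero_smul, zero_smul,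
      sub_zero, sub_zero, WW_smul] at h5
    have h6 : WW psi 0 (b l) = 0 := by
      unfold WW
      ext a c
      simp [vecMulVec_apply]
    rw [h6, zero_add] at h5
    exact (Submodule.smul_mem_iff _ (hd l)).mp h5
  have hall : ∀ k l : Fin n, WW psi (b k) (b l) ∈ I := by
    have h4 : ∀ m, WW psi (b i) (b m) ∈ I := fun m => step i j m hij h3
    intro k l
    by_cases hki : k = i
    · rw [hki]; exact h4 l
    have h5 : WW psi (b k) (b i) ∈ I := by
      rw [WW_swap, Submodule.neg_mem_iff]
      exact h4 k
    exact step k i l hki h5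
  refine so_mem hpsi hu I ?_ B hB
  -- bilinearity
  have hr : ∀ k w, WW psi (b k) w ∈ I := by
    intro k w
    have hw : w ∈ Submodule.span K (Set.range b) := by rw [b.span_eq]; trivial
    induction hw using Submodule.span_induction with
    | mem y hy =>
      obtain ⟨l, rfl⟩ := hy
      exact hall k l
    | zero =>
      have h6 : WW psi (b k) 0 = 0 := by
        unfold WW
        ext a c
        simp [vecMulVec_apply]
      rw [h6]; exact I.zero_mem
    | add y z _ _ h1 h2 => rw [WW_add]; exact I.add_mem h1 h2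
    | smul c y _ h1 => rw [WW_smul]; exact I.smul_mem c h1
  intro v w
  rw [WW_swap, Submodule.neg_mem_iff]
  have hv : v ∈ Submodule.span K (Set.range b) := by rw [b.span_eq]; trivial
  induction hv using Submodule.span_induction with
  | mem y hy =>
    obtain ⟨l, rfl⟩ := hy
    rw [WW_swap, Submodule.neg_mem_iff]
    exact hr l w
  | zero =>
    have h6 : WW psi w 0 = 0 := by
      unfold WW
      ext a c
      simp [vecMulVec_apply]
    rw [h6]; exact I.zero_mem
  | add y z _ _ h1 h2 => rw [WW_add]; exact I.add_mem h1 h2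
  | smul c y _ h1 => rw [WW_smul]; exact I.smul_mem c h1

end MT.Smp
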