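import Pool.Agent.Helper8.MT.PSR

/-!
# The symplectic Lie algebra is simple

Matrices over a field of characteristic zero; `psi` is a non-degenerate alternating form. Every
nonzero subspace of `sp(psi)` which is stable under brackets with `sp(psi)` is everything.
-/

set_option autoImplicit false

open Matrix

namespace MT.Smp

open MT.Psr

variable {K : Type*} [Field K] {n : ℕ}

/-- the Lie algebra of the isometries of `psi` -/
def Iso (psi A : Matrix (Fin n) (Fin n) K) : Prop := A.transpose * psi + psi * A = 0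

theorem pf_zero_left (psi : Matrix (Fin n) (Fin n) K) (y : Fin n → K) : pf psi 0 y = 0 := by
  unfold pf; rw [zero_dotProduct]

theorem pf_zero_right (psi : Matrix (Fin n) (Fin n) K) (x : Fin n → K) : pf psi x 0 = 0 := by
  unfold pf; rw [mulVec_zero, dotProduct_zero]

theorem vmv_mulVec (a b x : Fin n → K) : vecMulVec a b *ᵥ x = (b ⬝ᵥ x) • a := by
  ext i
  simp only [mulVec, dotProduct, vecMulVec_apply, Pi.smul_apply, smul_eq_mul]
  rw [Finset.sum_mul]
  exact Finset.sum_congr rfl fun j _ => by ring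

theorem BB_mulVec (psi : Matrix (Fin n) (Fin n) K) (u w x : Fin n → K) :
    BB psi u w *ᵥ x = pf psi x w • u + pf psi x u • w := by
  unfold BB
  rw [add_mulVec, vmv_mulVec, vmv_mulVec, pf_eq, pf_eq]

theorem XX_eq (psi : Matrix (Fin n) (Fin n) K) (u : Fin n → K) :
    BB psi u u = (2 : K) • XX psi u := by
  unfold BB XX
  rw [two_smul]

theorem iso_vmv {psi : Matrix (Fin n) (Fin n) K} (hpsi : psi.transpose = -psi)
    (u w : Fin n → K) : Iso psi (BB psi u w) := by
  unfold Iso BB
  have h : ∀ a b : Fin n → K, (vecMulVec a (psi *ᵥ b)).transpose * psi =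
      - vecMulVec (psi *ᵥ b) (psi *ᵥ a) := by
    intro a b
    rw [transpose_vecMulVec, vecMulVec_mul', hpsi, neg_mulVec]
    ext i j
    simp [vecMulVec_apply]
  rw [transpose_add, add_mul, mul_add, h, h, mul_vecMulVec', mul_vecMulVec']
  abel

theorem iso_XX [CharZero K] {psi : Matrix (Fin n) (Fin n) K} (hpsi : psi.transpose = -psi)
    (u : Fin n → K) : Iso psi (XX psi u) := by
  have h := iso_vmv hpsi u u
  rw [XX_eq] at h
  unfold Iso at h ⊢
  rw [transpose_smul, smul_mul_assoc, mul_smul_comm, ← smul_add] at h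
  exact (smul_eq_zero.mp h).resolve_left two_ne_zero

theorem bracket_BB {psi A : Matrix (Fin n) (Fin n) K} (hA : Iso psi A) (u w : Fin n → K) :
    A * BB psi u w - BB psi u w * A = BB psi (A *ᵥ u) w + BB psi u (A *ᵥ w) := by
  unfold BB
  have h1 : ∀ v, A.transpose *ᵥ (psi *ᵥ v) = - (psi *ᵥ (A *ᵥ v)) := by
    intro v
    rw [mulVec_mulVec, mulVec_mulVec, eq_neg_of_add_eq_zero_left hA, neg_mulVec]
  rw [mul_add, add_mul, mul_vecMulVec', mul_vecMulVec', vecMulVec_mul', vecMulVec_mul', h1, h1]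
  ext i j
  simp only [Matrix.add_apply, Matrix.sub_apply, vecMulVec_apply, Pi.neg_apply]
  ring

/-- some diagonal value of `pf psi (A u) u` does not vanish -/
theorem exists_diag [CharZero K] {psi : Matrix (Fin n) (Fin n) K} (hpsi : psi.transpose = -psi)
    (hu : IsUnit psi) {A : Matrix (Fin n) (Fin n) K} (hA : Iso psi A) (h0 : A ≠ 0) :
    ∃ u, pf psi (A *ᵥ u) u ≠ 0 := by
  by_contra h
  push Not at h
  apply h0
  have h1 : ∀ u w, pf psi (A *ᵥ u) w = 0 := by
    intro u w
    have h2 := h (u + w)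
    rw [mulVec_add, pf_add_left, pf_add_right, pf_add_right, h u, h w, zero_add, add_zero] at h2
    have h3 : pf psi (A *ᵥ w) u = pf psi (A *ᵥ u) w := by
      rw [pf_sp hA w u, pf_neg hpsi w (A *ᵥ u), neg_neg]
    rw [h3] at h2
    have h4 : (2 : K) * pf psi (A *ᵥ u) w = 0 := by linear_combination h2
    exact (mul_eq_zero.mp h4).resolve_left two_ne_zero
  have h5 : ∀ u, A *ᵥ u = 0 := fun u => pf_nondeg hu (h1 u)
  ext i j
  have h6 := congrFun (h5 (Pi.single j 1)) i
  rw [mulVec_single_one] at h6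
  exact h6

/-- transitivity of `sp(psi)` -/
theorem sp_trans [CharZero K] {psi : Matrix (Fin n) (Fin n) K} (hpsi : psi.transpose = -psi)
    (hu : IsUnit psi) {u : Fin n → K} (h0 : u ≠ 0) (w : Fin n → K) :
    ∃ B, Iso psi B ∧ B *ᵥ u = w := by
  have h1 : ∃ y, pf psi u y ≠ 0 := by
    by_contra h
    push Not at h
    exact h0 (pf_nondeg hu h)
  obtain ⟨y, hy⟩ := h1
  set a : Fin n → K := (pf psi u y)⁻¹ • y with ha
  have ha1 : pf psi u a = 1 := by
    rw [ha, pf_smul_right, inv_mul_cancel₀ hy]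
  set b : Fin n → K := w + (-(pf psi u w / 2)) • a with hb
  refine ⟨BB psi a b, iso_vmv hpsi a b, ?_⟩
  rw [BB_mulVec, ha1, one_smul]
  have h2 : pf psi u b = pf psi u w / 2 := by
    rw [hb, pf_add_right, pf_smul_right, ha1]
    ring
  rw [h2, hb]
  ext i
  simp only [Pi.add_apply, Pi.smul_apply, smul_eq_mul]
  ring

/-- `sp(psi)` is simple -/
theorem sp_ideal [CharZero K] {psi : Matrix (Fin n) (Fin n) K} (hpsi : psi.transpose = -psi)
    (hu : IsUnit psi) (I : Submodule K (Matrix (Fin n) (Fin n) K)) (hI : ∀ A ∈ I, Iso psi A)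
    (hid : ∀ A ∈ I, ∀ B, Iso psi B → B * A - A * B ∈ I) (hne : I ≠ ⊥)
    (B : Matrix (Fin n) (Fin n) K) (hB : Iso psi B) : B ∈ I := by
  obtain ⟨A, hA, hA0⟩ := Submodule.exists_mem_ne_zero_of_ne_bot hne
  obtain ⟨u, hud⟩ := exists_diag hpsi hu (hI A hA) hA0
  have hu0 : u ≠ 0 := by
    intro h
    rw [h, pf_zero_right] at hud
    exact hud rfl
  -- `BB u (A u) ∈ I`
  have h1 : BB psi u (A *ᵥ u) ∈ I := by
    have h2 := hid A hA (XX psi u) (iso_XX hpsi u)
    have h3 := bracket_XX_of (hI A hA) u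
    rw [← neg_mem_iff, neg_sub] at h2
    rw [← h3]
    exact h2
  -- `XX u ∈ I`
  have h2 : BB psi u u ∈ I := by
    have h3 := hid _ h1 (XX psi u) (iso_XX hpsi u)
    have h4 := bracket_BB (iso_XX hpsi u) u (A *ᵥ u)
    rw [h4] at h3
    have hXX : ∀ v, XX psi u *ᵥ v = pf psi v u • u := by
      intro v
      unfold XX
      rw [vmv_mulVec, pf_eq]
    have huu : pf psi u u = 0 := by
      have h5 := pf_neg hpsi u u
      have h6 : (2 : K) * pf psi u u = 0 := by linear_combination h5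
      exact (mul_eq_zero.mp h6).resolve_left two_ne_zero
    rw [hXX, hXX, huu, zero_smul, BB_comm u (pf psi (A *ᵥ u) u • u), BB_smul_left] at h3
    have h7 : BB psi 0 (A *ᵥ u) = 0 := by
      unfold BB
      ext i j
      simp [vecMulVec_apply]
    rw [h7, zero_add] at h3
    exact (Submodule.smul_mem_iff _ hud).mp h3
  -- `BB u w ∈ I`
  have h3 : ∀ w, BB psi u w ∈ I := by
    intro w
    obtain ⟨C, hC, hCu⟩ := sp_trans hpsi hu hu0 w
    have h4 := hid _ h2 C hC
    rw [bracket_BB hC, hCu, BB_comm w u, ← two_smul K] at h4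
    exact (Submodule.smul_mem_iff _ two_ne_zero).mp h4
  refine sp_mem hpsi hu I ?_ B hB
  intro v w
  obtain ⟨C, hC, hCu⟩ := sp_trans hpsi hu hu0 v
  have h4 := hid _ (h3 w) C hC
  rw [bracket_BB hC, hCu] at h4
  exact (Submodule.add_mem_iff_left _ (h3 _)).mp h4

end MT.Smp
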